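import Pool.Agent.Y743.NC.Tail
import Pool.Agent.Y743.PR.Main

/-! # Second moments of the spacings of the `r`-th neighbours in dyadic blocks -/

set_option autoImplicit false

open Filter Topology MeasureTheory Set

namespace Pool.Agent.Y743.NC

open SG (ord NZ)
open LG (dlt)
open SP (RHs)
open Pool.Agent.Y743.LR

lemma sq_le_of_le {x : ℝ} (K : ℕ) (hx : |x| ≤ 2 ^ K) :
    x ^ 2 ≤ 1 + ∑ k ∈ Finset.range K, 4 ^ (k + 1) * (if 2 ^ k < |x| then (1 : ℝ) else 0) := by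
  induction K with
  | zero =>
    rw [pow_zero] at hx
    rw [Finset.range_zero, Finset.sum_empty, add_zero, ← sq_abs]
    have := abs_nonneg x
    nlinarith
  | succ K ih =>
    rw [Finset.sum_range_succ]
    rcases le_or_gt |x| (2 ^ K) with h | h
    · have h1 := ih h
      have h2 : (0 : ℝ) ≤ 4 ^ (K + 1) * (if 2 ^ K < |x| then (1 : ℝ) else 0) := by
        split_ifs <;> positivity
      linarith
    · rw [if_pos h, mul_one]
      have h1 : x ^ 2 ≤ 4 ^ (K + 1) := by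
        rw [← sq_abs]
        calc |x| ^ 2 ≤ (2 ^ (K + 1)) ^ 2 := pow_le_pow_left₀ (abs_nonneg _) hx 2
          _ = 4 ^ (K + 1) := by rw [← pow_mul, mul_comm, pow_mul]; norm_num
      have h2 : (0 : ℝ) ≤ ∑ k ∈ Finset.range K, 4 ^ (k + 1) *
          (if 2 ^ k < |x| then (1 : ℝ) else 0) :=
        Finset.sum_nonneg fun k _ => by split_ifs <;> positivity
      linarith

lemma sq_dyadic (x : ℝ) (K : ℕ) :
    x ^ 2 ≤ 1 + ∑ k ∈ Finset.range K, 4 ^ (k + 1) * (if 2 ^ k < |x| then (1 : ℝ) else 0) +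
      |x| ^ 3 / 2 ^ K := by
  have h2 : (0 : ℝ) ≤ ∑ k ∈ Finset.range K, 4 ^ (k + 1) *
      (if 2 ^ k < |x| then (1 : ℝ) else 0) :=
    Finset.sum_nonneg fun k _ => by split_ifs <;> positivity
  rcases le_or_gt |x| (2 ^ K) with h | h
  · have h1 := sq_le_of_le K h
    have h3 : 0 ≤ |x| ^ 3 / 2 ^ K := by positivity
    linarith
  · have h3 : x ^ 2 ≤ |x| ^ 3 / 2 ^ K := by
      rw [le_div_iff₀ (by positivity), ← sq_abs]
      have : |x| ^ 2 * 2 ^ K ≤ |x| ^ 2 * |x| := mul_le_mul_of_nonneg_left h.le (by positivity)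
      calc _ ≤ |x| ^ 2 * |x| := this
        _ = _ := by ring
    linarith

/-- zeros in unit intervals -/
lemma unit_count : ∃ C : ℝ, 0 < C ∧ ∀ t : ℝ, 3 ≤ t → (NZ (t + 1) : ℝ) ≤ NZ t + C * Real.log t := by
  obtain ⟨C, hC, hz⟩ := H370.zcount H370.good_zeta
  refine ⟨C, hC, fun t ht => ?_⟩
  have h1 := SG.NZ_le_add t (t + 1) (by linarith)
  have h2 : H370.NN riemannZeta t (t + 1) ≤ H370.NN riemannZeta (t - 1) (t + 1) :=
    H370.NN_mono H370.good_zeta (by linarith) (by linarith) le_rfl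
  have h3 := hz t ht
  have h4 : (NZ (t + 1) : ℝ) ≤ NZ t + H370.NN riemannZeta (t - 1) (t + 1) := by
    exact_mod_cast h1.trans (Nat.add_le_add_left h2 _)
  linarith

lemma ff_eq (T : ℝ) (r n : ℕ) : ff T r n = ∑ j ∈ Finset.range r, dif (yv T) (n + j) - r := by
  unfold ff
  congr 1
  have := Finset.sum_range_sub (fun j => yv T (n + j)) r
  simp only [add_zero] at this
  rw [← this]
  refine Finset.sum_congr rfl fun j _ => ?_
  rfl

lemma sum_shift (I : Finset ℕ) (j : ℕ) (g : ℕ → ℝ) :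
    ∑ n ∈ I, g (n + j) = ∑ m ∈ I.image (· + j), g m := by
  rw [Finset.sum_image]
  intro a _ b _ h
  exact Nat.add_right_cancel h

lemma pow3_sum (r : ℕ) (g : ℕ → ℝ) (hg : ∀ j, 0 ≤ g j) :
    (∑ j ∈ Finset.range r, g j) ^ 3 ≤ (r : ℝ) ^ 2 * ∑ j ∈ Finset.range r, g j ^ 3 := by
  rcases Nat.eq_zero_or_pos r with h | h
  · subst h; simp
  have hr : (0 : ℝ) < r := by exact_mod_cast h
  have h2 := pow_sum_div_card_le_sum_pow (s := Finset.range r) (f := g) (fun j _ => hg j) 2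
  rw [Finset.card_range, div_le_iff₀ (by positivity)] at h2
  rw [mul_comm]
  exact h2

/-- second moments in a block, away from the end points -/
theorem inner (hRH : RHs) : ∃ C2 : ℝ, 1 ≤ C2 ∧ ∀ r : ℕ, 1 ≤ r → ∃ T0 : ℝ, 10 ≤ T0 ∧ ∀ T : ℝ,
    T0 ≤ T → ∀ I : Finset ℕ, (∀ n ∈ I, 1 ≤ n ∧ T + 1 ≤ ord n ∧ ord n + 1 ≤ 2 * T) →
      ∑ n ∈ I, ff T r n ^ 2 ≤ C2 * (1 + Real.log r) ^ 2 * (T * Real.log T) := by
  obtain ⟨κ, D, C, hκ, hκ1, hD, hC, hg⟩ := good_ev
  obtain ⟨C', hC', hcube⟩ := gam_cube (D := D) hRH hκ hC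
  obtain ⟨C1, hC1, htail⟩ := tail
  refine ⟨2 * C + 80 * C1 + C' + 1, by linarith, fun r hr => ?_⟩
  have hr1 : (1 : ℝ) ≤ r := by exact_mod_cast hr
  have hlr : 0 ≤ Real.log r := Real.log_nonneg hr1
  set K : ℕ := 3 * (Nat.log 2 r + 1) with hK
  have hrK : (r : ℝ) ^ 3 ≤ 2 ^ K := by
    have h1 : r < 2 ^ (Nat.log 2 r + 1) := Nat.lt_pow_succ_log_self (by norm_num) r
    have h2 : (r : ℝ) ≤ 2 ^ (Nat.log 2 r + 1) := by exact_mod_cast h1.le
    calc (r : ℝ) ^ 3 ≤ (2 ^ (Nat.log 2 r + 1)) ^ 3 := pow_le_pow_left₀ (by linarith) h2 3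
      _ = 2 ^ K := by rw [← pow_mul, hK, mul_comm]
  have hlog2 : (Nat.log 2 r : ℝ) * Real.log 2 ≤ Real.log r := by
    have h1 : 2 ^ Nat.log 2 r ≤ r := Nat.pow_log_le_self 2 (by omega)
    have h2 : ((2 : ℝ)) ^ Nat.log 2 r ≤ r := by exact_mod_cast h1
    have h3 := Real.log_le_log (by positivity) h2
    rwa [Real.log_pow] at h3
  have hl2 : 0.6931471803 < Real.log 2 := Real.log_two_gt_d9
  have hK5 : (K : ℝ) ≤ 5 * (1 + Real.log r) := by
    rw [hK]
    push_cast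
    have : (0 : ℝ) ≤ Nat.log 2 r := Nat.cast_nonneg _
    nlinarith
  have hKlog : ∀ k < K, 1 + Real.log (r + 2 ^ k) ≤ 4 * (1 + Real.log r) := by
    intro k hk
    have h1 : (2 : ℝ) ^ k ≤ 8 * (r : ℝ) ^ 3 := by
      have h2 : (2 : ℝ) ^ Nat.log 2 r ≤ r := by
        exact_mod_cast Nat.pow_log_le_self 2 (by omega)
      calc (2 : ℝ) ^ k ≤ 2 ^ K := pow_le_pow_right₀ (by norm_num) hk.le
        _ = 8 * (2 ^ Nat.log 2 r) ^ 3 := by rw [hK]; ring
        _ ≤ 8 * (r : ℝ) ^ 3 := by gcongr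
    have h2 : (r : ℝ) ≤ r ^ 3 := by nlinarith [sq_nonneg ((r : ℝ) - 1), sq_nonneg (r : ℝ)]
    have h3 : Real.log (r + 2 ^ k) ≤ Real.log (16 * (r : ℝ) ^ 3) :=
      Real.log_le_log (by positivity) (by linarith)
    have h4 : Real.log (16 * (r : ℝ) ^ 3) = 4 * Real.log 2 + 3 * Real.log r := by
      rw [Real.log_mul (by norm_num) (by positivity), Real.log_pow,
        show (16 : ℝ) = 2 ^ 4 by norm_num, Real.log_pow]
      push_cast
      ring
    have h5 : Real.log 2 < 0.6931471808 := Real.log_two_lt_d9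
    linarith
  have hKT : ∀ k : ℕ, ∃ T0 : ℝ, 10 ≤ T0 ∧
    ∀ T : ℝ, T0 ≤ T → ∀ S : Finset ℕ,
      (∀ n ∈ S, 1 ≤ n ∧ T + 2 ^ k / 2 * (2 * Real.pi / Real.log T) ≤ ord n ∧
        ord n + 2 ^ k / 2 * (2 * Real.pi / Real.log T) ≤ 2 * T ∧ 2 ^ k < |ff T r n|) →
      (S.card : ℝ) ≤ C1 * (1 + Real.log (r + 2 ^ k)) / (2 ^ k) ^ 2 * (T * Real.log T) := fun k =>
    htail r (2 ^ k) hr (one_le_pow₀ (by norm_num))
  choose Tk hTk1 hTk using hKT
  obtain ⟨Tg, hTg, hgood⟩ := hg r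
  obtain ⟨T3, hT3⟩ := (Real.tendsto_log_atTop.eventually_ge_atTop
    (max 1 (2 ^ K * 4))).exists_forall_of_atTop
  set Tm : ℝ := ∑ k ∈ Finset.range K, Tk k with hTm
  have hTkm : ∀ k < K, Tk k ≤ Tm := fun k hk =>
    Finset.single_le_sum (f := Tk) (fun i _ => by linarith [hTk1 i]) (Finset.mem_range.mpr hk)
  refine ⟨max (max Tg T3) (max Tm 10), (le_max_right _ _).trans (le_max_right _ _),
    fun T hT I hI => ?_⟩
  have hTTg : Tg ≤ T := ((le_max_left _ _).trans (le_max_left _ _)).trans hT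
  have hTT3 : T3 ≤ T := ((le_max_right _ _).trans (le_max_left _ _)).trans hT
  have hTTm : Tm ≤ T := ((le_max_left _ _).trans (le_max_right _ _)).trans hT
  have hT10 : 10 ≤ T := ((le_max_right _ _).trans (le_max_right _ _)).trans hT
  have hgT := hgood T hTTg
  have hL1 : 1 ≤ Real.log T := (le_max_left _ _).trans (hT3 T hTT3)
  have hL2 : 2 ^ K * 4 ≤ Real.log T := (le_max_right _ _).trans (hT3 T hTT3)
  have hpi := Real.pi_gt_three
  have hpi4 := Real.pi_lt_four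
  have hTL : 0 < T * Real.log T := by positivity
  -- positions
  have hpos : ∀ n ∈ I, NZ T < n ∧ n ≤ NZ (2 * T) := by
    intro n hn
    obtain ⟨a1, a2, a3⟩ := hI n hn
    constructor
    · by_contra hcon
      push Not at hcon
      have := (SG.ord_le_iff a1 _).mpr hcon
      linarith
    · exact (SG.ord_le_iff a1 _).mp (by linarith)
  have h23 : NZ (2 * T) ≤ NZ (3 * T) := SG.NZ_mono (by linarith)
  have hcardI : (I.card : ℝ) ≤ C * (T * Real.log T) := by
    have h1 : I ⊆ Finset.Ioc (NZ T) (NZ (2 * T)) := fun n hn => Finset.mem_Ioc.mpr (hpos n hn)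
    have h2 := Finset.card_le_card h1
    rw [Nat.card_Ioc] at h2
    have h3 : I.card ≤ NZ (3 * T) := by omega
    have h4 : (I.card : ℝ) ≤ NZ (3 * T) := by exact_mod_cast h3
    have h5 := hgT.card
    have h6 : (0 : ℝ) ≤ r := by linarith
    linarith
  -- cubes
  have hcub : ∑ n ∈ I, |ff T r n| ^ 3 ≤ (r : ℝ) ^ 3 * ((C + C') * (T * Real.log T)) := by
    have h1 : ∀ n ∈ I, |ff T r n| ^ 3 ≤
        (r : ℝ) ^ 2 * ∑ j ∈ Finset.range r, dif (yv T) (n + j) ^ 3 + (r : ℝ) ^ 3 := by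
      intro n hn
      have h0 : ∀ j, 0 ≤ dif (yv T) (n + j) := fun j =>
        dif_nonneg (by linarith) (by have := (hI n hn).1; omega)
      rw [ff_eq]
      refine (abs_cube (Finset.sum_nonneg fun j _ => h0 j) (by linarith)).trans ?_
      have := pow3_sum r (fun j => dif (yv T) (n + j)) h0
      linarith
    refine (Finset.sum_le_sum h1).trans ?_
    rw [Finset.sum_add_distrib, Finset.sum_const, nsmul_eq_mul, ← Finset.mul_sum, Finset.sum_comm]
    have h2 : ∀ j ∈ Finset.range r, ∑ n ∈ I, dif (yv T) (n + j) ^ 3 ≤ C' * (T * Real.log T) := by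
      intro j hj
      rw [Finset.mem_range] at hj
      rw [sum_shift I j (fun m => dif (yv T) m ^ 3)]
      refine hcube r T hgT _ fun m hm => ?_
      rw [Finset.mem_image] at hm
      obtain ⟨n, hn, rfl⟩ := hm
      have := hpos n hn
      omega
    have h3 := Finset.sum_le_sum h2
    rw [Finset.sum_const, Finset.card_range, nsmul_eq_mul] at h3
    have h4 : (r : ℝ) ^ 2 * ∑ j ∈ Finset.range r, ∑ n ∈ I, dif (yv T) (n + j) ^ 3 ≤
        (r : ℝ) ^ 2 * (r * (C' * (T * Real.log T))) :=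
      mul_le_mul_of_nonneg_left h3 (by positivity)
    have h5 : (I.card : ℝ) * (r : ℝ) ^ 3 ≤ C * (T * Real.log T) * (r : ℝ) ^ 3 :=
      mul_le_mul_of_nonneg_right hcardI (by positivity)
    calc _ ≤ (r : ℝ) ^ 2 * (r * (C' * (T * Real.log T))) + C * (T * Real.log T) * (r : ℝ) ^ 3 :=
          add_le_add h4 h5
      _ = _ := by ring
  -- levels
  have hlev : ∀ k < K, 4 ^ (k + 1) * ∑ n ∈ I, (if 2 ^ k < |ff T r n| then (1 : ℝ) else 0) ≤
      16 * C1 * (1 + Real.log r) * (T * Real.log T) := by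
    intro k hk
    have h1 := hTk k T ((hTkm k hk).trans hTTm) (I.filter fun n => 2 ^ k < |ff T r n|) (by
      intro n hn
      obtain ⟨a1, a2⟩ := Finset.mem_filter.mp hn
      obtain ⟨b1, b2, b3⟩ := hI n a1
      have h2 : (2 : ℝ) ^ k ≤ 2 ^ K := pow_le_pow_right₀ (by norm_num) hk.le
      have h3 : 2 ^ k / 2 * (2 * Real.pi / Real.log T) ≤ 1 := by
        have e1 : 2 ^ k / 2 * (2 * Real.pi / Real.log T) = 2 ^ k * Real.pi / Real.log T := by ring
        rw [e1, div_le_one (by linarith)]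
        have h4 : (2 : ℝ) ^ k * Real.pi ≤ 2 ^ K * 4 := mul_le_mul h2 hpi4.le (by linarith) (by positivity)
        linarith
      exact ⟨b1, by linarith, by linarith, a2⟩)
    rw [Finset.sum_boole]
    calc 4 ^ (k + 1) * ((I.filter fun n => 2 ^ k < |ff T r n|).card : ℝ) ≤
        4 ^ (k + 1) * (C1 * (1 + Real.log (r + 2 ^ k)) / (2 ^ k) ^ 2 * (T * Real.log T)) :=
          mul_le_mul_of_nonneg_left h1 (by positivity)
      _ = 4 * C1 * (1 + Real.log (r + 2 ^ k)) * (T * Real.log T) := by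
          have e1 : ((2 : ℝ) ^ k) ^ 2 = 4 ^ k := by
            rw [← pow_mul, mul_comm, pow_mul]
            norm_num
          rw [e1, pow_succ]
          field_simp
      _ ≤ 4 * C1 * (4 * (1 + Real.log r)) * (T * Real.log T) := by
          have := hKlog k hk
          gcongr
      _ = _ := by ring
  -- assembly
  have h1 : ∑ n ∈ I, ff T r n ^ 2 ≤ ∑ n ∈ I, (1 + ∑ k ∈ Finset.range K, 4 ^ (k + 1) *
      (if 2 ^ k < |ff T r n| then (1 : ℝ) else 0) + |ff T r n| ^ 3 / 2 ^ K) :=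
    Finset.sum_le_sum fun n _ => sq_dyadic _ K
  refine h1.trans ?_
  rw [Finset.sum_add_distrib, Finset.sum_add_distrib, Finset.sum_const, nsmul_eq_mul, mul_one,
    Finset.sum_comm, ← Finset.sum_div]
  have h2 : ∑ k ∈ Finset.range K, ∑ n ∈ I, 4 ^ (k + 1) *
      (if 2 ^ k < |ff T r n| then (1 : ℝ) else 0) ≤
      K * (16 * C1 * (1 + Real.log r) * (T * Real.log T)) := by
    calc _ = ∑ k ∈ Finset.range K, 4 ^ (k + 1) * ∑ n ∈ I,
          (if 2 ^ k < |ff T r n| then (1 : ℝ) else 0) :=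
          Finset.sum_congr rfl fun k _ => (Finset.mul_sum _ _ _).symm
      _ ≤ ∑ _k ∈ Finset.range K, 16 * C1 * (1 + Real.log r) * (T * Real.log T) :=
          Finset.sum_le_sum fun k hk => hlev k (Finset.mem_range.mp hk)
      _ = _ := by rw [Finset.sum_const, Finset.card_range, nsmul_eq_mul]
  have h3 : (∑ n ∈ I, |ff T r n| ^ 3) / 2 ^ K ≤ (C + C') * (T * Real.log T) := by
    rw [div_le_iff₀ (by positivity)]
    refine hcub.trans ?_
    have : (r : ℝ) ^ 3 * ((C + C') * (T * Real.log T)) ≤ 2 ^ K * ((C + C') * (T * Real.log T)) :=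
      mul_le_mul_of_nonneg_right hrK (by positivity)
    linarith
  have h4 : (K : ℝ) * (16 * C1 * (1 + Real.log r) * (T * Real.log T)) ≤
      5 * (1 + Real.log r) * (16 * C1 * (1 + Real.log r) * (T * Real.log T)) :=
    mul_le_mul_of_nonneg_right hK5 (by positivity)
  have h5 : (2 * C + C' + 1) * (T * Real.log T) ≤
      (2 * C + C' + 1) * (1 + Real.log r) ^ 2 * (T * Real.log T) := by
    apply mul_le_mul_of_nonneg_right _ hTL.le
    have : 1 ≤ (1 + Real.log r) ^ 2 := one_le_pow₀ (by linarith)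
    nlinarith
  calc (I.card : ℝ) + ∑ k ∈ Finset.range K, ∑ n ∈ I, 4 ^ (k + 1) *
      (if 2 ^ k < |ff T r n| then (1 : ℝ) else 0) + (∑ n ∈ I, |ff T r n| ^ 3) / 2 ^ K ≤
      C * (T * Real.log T) + 5 * (1 + Real.log r) * (16 * C1 * (1 + Real.log r) *
        (T * Real.log T)) + (C + C') * (T * Real.log T) := by linarith
    _ ≤ (2 * C + C' + 1) * (T * Real.log T) +
        80 * C1 * (1 + Real.log r) ^ 2 * (T * Real.log T) := by nlinarith
    _ ≤ (2 * C + C' + 1) * (1 + Real.log r) ^ 2 * (T * Real.log T) +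
        80 * C1 * (1 + Real.log r) ^ 2 * (T * Real.log T) := by linarith
    _ = _ := by ring

end Pool.Agent.Y743.NC
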