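import Pool.Agent.Y743.LR.NX

/-! # Deviations of the spacings of the `r`-th neighbours from the number variance -/

set_option autoImplicit false

open Filter Topology MeasureTheory Set

namespace Pool.Agent.Y743.NC

open SG (ord NZ)
open LG (dlt)
open SP (RHs)
open Pool.Agent.Y743.LR

/-- squared deviation of the number of ordinates in a window of length `a` mean spacings -/
noncomputable def dev (T a t : ℝ) : ℝ :=
  ((NZ (t + 2 * Real.pi * a / Real.log T) : ℝ) - NZ t - a) ^ 2

lemma dev_nonneg (T a t : ℝ) : 0 ≤ dev T a t := sq_nonneg _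

lemma dev_int (T a A B : ℝ) : IntegrableOn (dev T a) (Icc A B) :=
  step_int SG.NZ_mono (fun n m => ((m : ℝ) - n - a) ^ 2) _ A B

/-- the number variance -/
lemma var_le : ∃ C T0 : ℝ, 1 ≤ C ∧ 10 ≤ T0 ∧ ∀ T : ℝ, T0 ≤ T → ∀ a : ℝ, 0 < a →
    a * Real.log a ≤ Real.log T → ∫ t in Icc T (2 * T), dev T a t ≤ T * (C + Real.log (1 + a)) := by
  obtain ⟨C, T0, hC, hT0, hv⟩ := Pool.Agent.TH850.UV.nv2 1 le_rfl
  refine ⟨C + 1, T0, by linarith, hT0, fun T hT a ha haL => ?_⟩
  have hpi := Real.pi_gt_three
  have hT10 : 10 ≤ T := hT0.trans hT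
  have hL : 0 < Real.log T := Real.log_pos (by linarith)
  obtain ⟨_, h4⟩ := hv T hT a ha (by rw [one_mul]; exact haL)
  have hh0 : 0 ≤ 2 * Real.pi * a / Real.log T := by positivity
  have e1 : ∫ t in T..(2 * T),
      ((Pool.Agent.TH850.UV.cnt t (2 * Real.pi * a / Real.log T) : ℝ) - a) ^ 2 =
      ∫ t in Icc T (2 * T), dev T a t := by
    rw [integral_Icc_eq_integral_Ioc, ← intervalIntegral.integral_of_le (by linarith)]
    refine intervalIntegral.integral_congr fun t ht => ?_
    rw [uIcc_of_le (by linarith)] at ht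
    show ((Pool.Agent.TH850.UV.cnt t (2 * Real.pi * a / Real.log T) : ℝ) - a) ^ 2 = _
    rw [cnt_NZ (by linarith [ht.1]) hh0]
    rfl
  rw [e1] at h4
  have h5 := (abs_le.mp h4).2
  have h6 : 0 ≤ Real.log (1 + a) := Real.log_nonneg (by linarith)
  have h7 : T / Real.pi ^ 2 * Real.log (1 + a) ≤ T * Real.log (1 + a) := by
    apply mul_le_mul_of_nonneg_right _ h6
    apply div_le_self (by linarith)
    nlinarith
  nlinarith

/-- counting by integration -/
lemma count_le {A B ℓ : ℝ} (hℓ : 0 ≤ ℓ) (S : Finset ℕ) (c : ℕ → ℝ) {g : ℝ → ℝ}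
    (hg : IntegrableOn g (Icc A B)) (hin : ∀ n ∈ S, A ≤ c n ∧ c n + ℓ ≤ B)
    (hpt : ∀ t ∈ Icc A B, ((S.filter fun n => c n ≤ t ∧ t < c n + ℓ).card : ℝ) ≤ g t) :
    ℓ * S.card ≤ ∫ t in Icc A B, g t := by
  have hint : ∀ n ∈ S, IntegrableOn
      ((Ico (c n) (c n + ℓ)).indicator fun _ : ℝ => (1 : ℝ)) (Icc A B) := fun n _ =>
    (integrableOn_const (by rw [Real.volume_Icc]; exact ENNReal.ofReal_ne_top)).indicator
      measurableSet_Ico
  have h1 : ∀ n ∈ S, ∫ t in Icc A B, (Ico (c n) (c n + ℓ)).indicator (fun _ : ℝ => (1 : ℝ)) t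
      = ℓ := by
    intro n hn
    obtain ⟨a1, a2⟩ := hin n hn
    rw [integral_indicator measurableSet_Ico, Measure.restrict_restrict measurableSet_Ico,
      setIntegral_const, smul_eq_mul, mul_one]
    have : Ico (c n) (c n + ℓ) ∩ Icc A B = Ico (c n) (c n + ℓ) := by
      apply inter_eq_left.mpr
      intro t ht
      exact ⟨a1.trans ht.1, ht.2.le.trans a2⟩
    rw [this, Measure.real, Real.volume_Ico, ENNReal.toReal_ofReal (by linarith)]
    ring
  calc ℓ * S.card = ∑ n ∈ S, ∫ t in Icc A B,
        (Ico (c n) (c n + ℓ)).indicator (fun _ : ℝ => (1 : ℝ)) t := by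
        rw [Finset.sum_congr rfl h1, Finset.sum_const, nsmul_eq_mul]
        ring
    _ = ∫ t in Icc A B, ∑ n ∈ S, (Ico (c n) (c n + ℓ)).indicator (fun _ : ℝ => (1 : ℝ)) t :=
        (integral_finsetSum _ hint).symm
    _ ≤ _ := by
        refine setIntegral_mono_on (integrable_finsetSum _ hint) hg measurableSet_Icc
          fun t ht => ?_
        refine le_trans (le_of_eq ?_) (hpt t ht)
        rw [Finset.card_filter]
        push_cast
        refine Finset.sum_congr rfl fun n _ => ?_
        by_cases h : c n ≤ t ∧ t < c n + ℓ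
        · rw [indicator_of_mem (by exact h), if_pos h]
        · rw [indicator_of_notMem (by exact h), if_neg h]

lemma pt_ineq {H w D : ℝ} (hH : 0 < H) (hD : H ^ 2 / 4 ≤ D) :
    w ≤ 4 / H * (D + (w - H / 2) ^ 2) := by
  rw [div_mul_eq_mul_div, le_div_iff₀ hH]
  rcases le_total w H with h | h
  · have : 0 ≤ (w - H / 2) ^ 2 := sq_nonneg _
    nlinarith
  · have h1 : (w - H / 2) ^ 2 ≥ H / 2 * (w - H / 2) := by nlinarith
    have : 0 ≤ H ^ 2 := sq_nonneg _
    nlinarith

/-- upper deviations -/
lemma up {T H : ℝ} (hT : 1 < T) (hH : 0 < H) (r : ℕ) (S : Finset ℕ)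
    (h1 : ∀ n ∈ S, 1 ≤ n) (h2 : ∀ n ∈ S, T + H / 2 * (2 * Real.pi / Real.log T) ≤ ord n)
    (h3 : ∀ n ∈ S, ord n + H / 2 * (2 * Real.pi / Real.log T) ≤ 2 * T)
    (h4 : ∀ n ∈ S, ord n + (r + H) * (2 * Real.pi / Real.log T) < ord (n + r)) :
    H / 2 * (2 * Real.pi / Real.log T) * S.card ≤
      4 / H * ((∫ t in Icc T (2 * T), dev T (r + H / 2) t) + ∫ t in Icc T (2 * T), dev T (H / 2) t) := by
  have hpi := Real.pi_pos
  have hL : 0 < Real.log T := Real.log_pos hT
  set h : ℝ := 2 * Real.pi / Real.log T with hh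
  have hh0 : 0 < h := by positivity
  set ℓ : ℝ := H / 2 * h with hℓ
  have hℓ0 : 0 < ℓ := by positivity
  have eH : ∀ a : ℝ, 2 * Real.pi * a / Real.log T = a * h := fun a => by rw [hh]; ring
  have i1 : IntegrableOn (dev T (r + H / 2)) (Icc (T + ℓ) (2 * T)) := dev_int _ _ _ _
  have i2 : IntegrableOn (fun t => dev T (H / 2) (t - ℓ)) (Icc (T + ℓ) (2 * T)) := by
    have : IntegrableOn (fun t => (fun n m : ℕ => ((n : ℝ) - m - H / 2) ^ 2) (NZ t)
        (NZ (t + (-ℓ)))) (Icc (T + ℓ) (2 * T)) :=
      step_int SG.NZ_mono (fun n m => ((n : ℝ) - m - H / 2) ^ 2) (-ℓ) _ _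
    refine this.congr_fun (fun t _ => ?_) measurableSet_Icc
    unfold dev
    rw [eH]
    have e1 : t - ℓ + H / 2 * h = t := by rw [hℓ]; ring
    rw [e1, sub_eq_add_neg t ℓ]
  have hmain := count_le (A := T + ℓ) (B := 2 * T) hℓ0.le S ord
    (g := fun t => 4 / H * (dev T (r + H / 2) t + dev T (H / 2) (t - ℓ)))
    ((i1.add i2).const_mul _) (fun n hn => ⟨h2 n hn, h3 n hn⟩) (by
      intro t ht
      rcases (S.filter fun n => ord n ≤ t ∧ t < ord n + ℓ).eq_empty_or_nonempty with he | he
      · rw [he, Finset.card_empty, Nat.cast_zero]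
        have := dev_nonneg T (r + H / 2) t
        have := dev_nonneg T (H / 2) (t - ℓ)
        positivity
      obtain ⟨n0, hn0⟩ := he
      rw [Finset.mem_filter] at hn0
      obtain ⟨hn0S, b1, b2⟩ := hn0
      -- the count
      have hsub : (S.filter fun n => ord n ≤ t ∧ t < ord n + ℓ) ⊆
          Finset.Ioc (NZ (t - ℓ)) (NZ t) := by
        intro n hn
        rw [Finset.mem_filter] at hn
        obtain ⟨c1, c2, c3⟩ := hn
        rw [Finset.mem_Ioc]
        refine ⟨?_, (SG.ord_le_iff (h1 n c1) _).mp c2⟩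
        by_contra hcon
        push Not at hcon
        have := (SG.ord_le_iff (h1 n c1) _).mpr hcon
        linarith
      have hcard := Finset.card_le_card hsub
      rw [Nat.card_Ioc] at hcard
      have hmono : NZ (t - ℓ) ≤ NZ t := SG.NZ_mono (by linarith)
      have hcard' : ((S.filter fun n => ord n ≤ t ∧ t < ord n + ℓ).card : ℝ) ≤
          (NZ t : ℝ) - NZ (t - ℓ) := by
        have : ((S.filter fun n => ord n ≤ t ∧ t < ord n + ℓ).card : ℝ) ≤
          ((NZ t - NZ (t - ℓ) : ℕ) : ℝ) := by exact_mod_cast hcard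
        rwa [Nat.cast_sub hmono] at this
      refine hcard'.trans ?_
      have e1 : dev T (H / 2) (t - ℓ) = ((NZ t : ℝ) - NZ (t - ℓ) - H / 2) ^ 2 := by
        unfold dev
        rw [eH]
        have e1 : t - ℓ + H / 2 * h = t := by rw [hℓ]; ring
        rw [e1]
      show _ ≤ 4 / H * (dev T (r + H / 2) t + dev T (H / 2) (t - ℓ))
      rw [e1]
      apply pt_ineq hH
      unfold dev
      rw [eH]
      -- few zeros in the long window
      have d1 : NZ (t + (r + H / 2) * h) < n0 + r := by
        by_contra hcon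
        push Not at hcon
        have h5 := (SG.ord_le_iff (by have := h1 n0 hn0S; omega) _).mpr hcon
        have h6 := h4 n0 hn0S
        have h7 : t + (r + H / 2) * h < ord n0 + (r + H) * h := by
          have : (r + H / 2) * h + ℓ = (r + H) * h := by rw [hℓ]; ring
          linarith
        linarith
      have d2 : n0 ≤ NZ t := (SG.ord_le_iff (h1 n0 hn0S) _).mp b1
      have d3 : (NZ (t + (r + H / 2) * h) : ℝ) < n0 + r := by exact_mod_cast d1
      have d4 : (n0 : ℝ) ≤ NZ t := by exact_mod_cast d2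
      have d5 : (NZ (t + (r + H / 2) * h) : ℝ) - NZ t - (r + H / 2) < -(H / 2) := by linarith
      nlinarith)
  refine hmain.trans ?_
  rw [integral_const_mul, integral_add i1 i2]
  apply mul_le_mul_of_nonneg_left _ (by positivity)
  apply add_le_add
  · refine setIntegral_mono_set (dev_int _ _ _ _)
      (Filter.Eventually.of_forall fun t => dev_nonneg _ _ _) ?_
    exact (Icc_subset_Icc_left (by linarith)).eventuallyLE
  · have h5 := shift_int (fun t => dev T (H / 2) t) (T + ℓ) (2 * T) (-ℓ)
    have h6 : ∫ t in Icc (T + ℓ) (2 * T), dev T (H / 2) (t - ℓ) =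
        ∫ t in Icc T (2 * T - ℓ), dev T (H / 2) t := by
      have e1 : ∀ t, t - ℓ = t + -ℓ := fun t => sub_eq_add_neg t ℓ
      simp_rw [e1]
      rw [h5]
      congr 2
      ring_nf
    rw [h6]
    refine setIntegral_mono_set (dev_int _ _ _ _)
      (Filter.Eventually.of_forall fun t => dev_nonneg _ _ _) ?_
    exact (Icc_subset_Icc_right (by linarith)).eventuallyLE

/-- lower deviations -/
lemma down {T H : ℝ} (hT : 1 < T) (hH : 0 < H) (r : ℕ) (S : Finset ℕ)
    (h1 : ∀ n ∈ S, 1 ≤ n) (h2 : ∀ n ∈ S, T + H / 2 * (2 * Real.pi / Real.log T) ≤ ord n)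
    (h3 : ∀ n ∈ S, ord n ≤ 2 * T)
    (h4 : ∀ n ∈ S, ord (n + r) < ord n + (r - H) * (2 * Real.pi / Real.log T)) :
    H / 2 * (2 * Real.pi / Real.log T) * S.card ≤
      4 / H * ((∫ t in Icc T (2 * T), dev T (r - H / 2) t) + ∫ t in Icc T (2 * T), dev T (H / 2) t) := by
  have hpi := Real.pi_pos
  have hL : 0 < Real.log T := Real.log_pos hT
  set h : ℝ := 2 * Real.pi / Real.log T with hh
  have hh0 : 0 < h := by positivity
  set ℓ : ℝ := H / 2 * h with hℓ
  have hℓ0 : 0 < ℓ := by positivity
  have eH : ∀ a : ℝ, 2 * Real.pi * a / Real.log T = a * h := fun a => by rw [hh]; ring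
  have i1 : IntegrableOn (dev T (r - H / 2)) (Icc T (2 * T)) := dev_int _ _ _ _
  have i2 : IntegrableOn (dev T (H / 2)) (Icc T (2 * T)) := dev_int _ _ _ _
  have hmain := count_le (A := T) (B := 2 * T) hℓ0.le S (fun n => ord n - ℓ)
    (g := fun t => 4 / H * (dev T (r - H / 2) t + dev T (H / 2) t))
    ((i1.add i2).const_mul _) (fun n hn => ⟨by linarith [h2 n hn], by linarith [h3 n hn]⟩) (by
      intro t ht
      rcases (S.filter fun n => ord n - ℓ ≤ t ∧ t < ord n - ℓ + ℓ).eq_empty_or_nonempty
        with he | he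
      · rw [he, Finset.card_empty, Nat.cast_zero]
        have := dev_nonneg T (r - H / 2) t
        have := dev_nonneg T (H / 2) t
        positivity
      obtain ⟨n0, hn0⟩ := he
      rw [Finset.mem_filter] at hn0
      obtain ⟨hn0S, b1, b2⟩ := hn0
      have hsub : (S.filter fun n => ord n - ℓ ≤ t ∧ t < ord n - ℓ + ℓ) ⊆
          Finset.Ioc (NZ t) (NZ (t + ℓ)) := by
        intro n hn
        rw [Finset.mem_filter] at hn
        obtain ⟨c1, c2, c3⟩ := hn
        rw [Finset.mem_Ioc]
        refine ⟨?_, (SG.ord_le_iff (h1 n c1) _).mp (by linarith)⟩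
        by_contra hcon
        push Not at hcon
        have := (SG.ord_le_iff (h1 n c1) _).mpr hcon
        linarith
      have hcard := Finset.card_le_card hsub
      rw [Nat.card_Ioc] at hcard
      have hmono : NZ t ≤ NZ (t + ℓ) := SG.NZ_mono (by linarith)
      have hcard' : ((S.filter fun n => ord n - ℓ ≤ t ∧ t < ord n - ℓ + ℓ).card : ℝ) ≤
          (NZ (t + ℓ) : ℝ) - NZ t := by
        have : ((S.filter fun n => ord n - ℓ ≤ t ∧ t < ord n - ℓ + ℓ).card : ℝ) ≤
          ((NZ (t + ℓ) - NZ t : ℕ) : ℝ) := by exact_mod_cast hcard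
        rwa [Nat.cast_sub hmono] at this
      refine hcard'.trans ?_
      have e1 : dev T (H / 2) t = ((NZ (t + ℓ) : ℝ) - NZ t - H / 2) ^ 2 := by
        unfold dev
        rw [eH]
      show _ ≤ 4 / H * (dev T (r - H / 2) t + dev T (H / 2) t)
      rw [e1]
      apply pt_ineq hH
      unfold dev
      rw [eH]
      -- many zeros in the short window
      have d1 : n0 + r ≤ NZ (t + (r - H / 2) * h) := by
        rw [← SG.ord_le_iff (by have := h1 n0 hn0S; omega)]
        have h6 := h4 n0 hn0S
        have h7 : ord n0 + (r - H) * h ≤ t + (r - H / 2) * h := by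
          have : (r - H / 2) * h = (r - H) * h + ℓ := by rw [hℓ]; ring
          linarith
        linarith
      have d2 : NZ t < n0 := by
        by_contra hcon
        push Not at hcon
        have := (SG.ord_le_iff (h1 n0 hn0S) _).mpr hcon
        linarith
      have d3 : (n0 : ℝ) + r ≤ NZ (t + (r - H / 2) * h) := by exact_mod_cast d1
      have d4 : (NZ t : ℝ) < n0 := by exact_mod_cast d2
      have d5 : H / 2 < (NZ (t + (r - H / 2) * h) : ℝ) - NZ t - (r - H / 2) := by linarith
      nlinarith)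
  refine hmain.trans ?_
  rw [integral_const_mul, integral_add i1 i2]

/-- normalised spacing of the `r`-th neighbour, centred -/
noncomputable def ff (T : ℝ) (r n : ℕ) : ℝ := yv T (n + r) - yv T n - r

/-- **tail of the spacings of the `r`-th neighbours** -/
theorem tail : ∃ C1 : ℝ, 1 ≤ C1 ∧ ∀ (r : ℕ) (H : ℝ), 1 ≤ r → 1 ≤ H → ∃ T0 : ℝ, 10 ≤ T0 ∧
    ∀ T : ℝ, T0 ≤ T → ∀ S : Finset ℕ,
      (∀ n ∈ S, 1 ≤ n ∧ T + H / 2 * (2 * Real.pi / Real.log T) ≤ ord n ∧
        ord n + H / 2 * (2 * Real.pi / Real.log T) ≤ 2 * T ∧ H < |ff T r n|) →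
      (S.card : ℝ) ≤ C1 * (1 + Real.log (r + H)) / H ^ 2 * (T * Real.log T) := by
  obtain ⟨C, T1, hC, hT1, hv⟩ := var_le
  have hpi := Real.pi_gt_three
  refine ⟨8 * (C + 1), by linarith, fun r H hr hH => ?_⟩
  have hr1 : (1 : ℝ) ≤ r := by exact_mod_cast hr
  have hH0 : 0 < H := by linarith
  have hrH : 2 ≤ r + H := by linarith
  have hlog0 : 0 ≤ Real.log (r + H) := Real.log_nonneg (by linarith)
  obtain ⟨T2, hT2⟩ := (Real.tendsto_log_atTop.eventually_ge_atTop
    (max 1 ((r + H) * Real.log (r + H)))).exists_forall_of_atTop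
  refine ⟨max T1 T2, hT1.trans (le_max_left _ _), fun T hT S hS => ?_⟩
  have hTT1 : T1 ≤ T := (le_max_left _ _).trans hT
  have hT10 : 10 ≤ T := hT1.trans hTT1
  have hlT := hT2 T ((le_max_right _ _).trans hT)
  have hL1 : 1 ≤ Real.log T := (le_max_left _ _).trans hlT
  have hL2 : (r + H) * Real.log (r + H) ≤ Real.log T := (le_max_right _ _).trans hlT
  set h : ℝ := 2 * Real.pi / Real.log T with hh
  have hh0 : 0 < h := by positivity
  -- the variance for the windows used
  have hvar : ∀ a : ℝ, 0 < a → a ≤ r + H →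
      ∫ t in Icc T (2 * T), dev T a t ≤ T * ((C + 1) * (1 + Real.log (r + H))) := by
    intro a ha har
    have h1 : a * Real.log a ≤ Real.log T := by
      rcases le_total a 1 with h | h
      · have : Real.log a ≤ 0 := Real.log_nonpos ha.le h
        nlinarith
      · refine le_trans ?_ hL2
        exact mul_le_mul har (Real.log_le_log ha har) (Real.log_nonneg h) (by linarith)
    refine (hv T hTT1 a ha h1).trans ?_
    apply mul_le_mul_of_nonneg_left _ (by linarith)
    have h2 : Real.log (1 + a) ≤ 1 + Real.log (r + H) := by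
      have h3 : Real.log (1 + a) ≤ Real.log (2 * (r + H)) :=
        Real.log_le_log (by linarith) (by linarith)
      rw [Real.log_mul (by norm_num) (by linarith)] at h3
      have : Real.log 2 ≤ 1 := by linarith [Real.log_two_lt_d9]
      linarith
    nlinarith
  have conv : ∀ c : ℕ, H / 2 * h * c ≤ 4 / H * (T * ((C + 1) * (1 + Real.log (r + H))) +
      T * ((C + 1) * (1 + Real.log (r + H)))) →
      (c : ℝ) ≤ 4 * (C + 1) * (1 + Real.log (r + H)) / H ^ 2 * (T * Real.log T) := by
    intro c hc
    have e1 : 4 / H * (T * ((C + 1) * (1 + Real.log (r + H))) +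
      T * ((C + 1) * (1 + Real.log (r + H)))) =
        H / 2 * h * (8 / Real.pi * (C + 1) * (1 + Real.log (r + H)) / H ^ 2 *
          (T * Real.log T)) := by
      rw [hh]
      field_simp
      ring
    rw [e1] at hc
    have h1 := le_of_mul_le_mul_left hc (by positivity)
    refine h1.trans ?_
    have h2 : 8 / Real.pi ≤ 4 := by
      rw [div_le_iff₀ (by linarith)]
      linarith
    gcongr
  set S1 := S.filter fun n => 0 ≤ ff T r n with hS1
  set S2 := S.filter fun n => ¬ 0 ≤ ff T r n with hS2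
  have hcard : S.card = S1.card + S2.card := (Finset.card_filter_add_card_filter_not _).symm
  have hpos : 0 < Real.log T / (2 * Real.pi) := by positivity
  have hinv : Real.log T / (2 * Real.pi) * h = 1 := by rw [hh]; field_simp
  have c1 := conv S1.card ((up (by linarith) hH0 r S1 (fun n hn => (hS n (Finset.mem_filter.mp hn).1).1)
    (fun n hn => (hS n (Finset.mem_filter.mp hn).1).2.1)
    (fun n hn => (hS n (Finset.mem_filter.mp hn).1).2.2.1) (fun n hn => by
      obtain ⟨a1, a2⟩ := Finset.mem_filter.mp hn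
      have a3 := (hS n a1).2.2.2
      rw [abs_of_nonneg a2] at a3
      unfold ff yv at a3
      have a4 : (r + H) * (Real.log T / (2 * Real.pi) * h) <
          (ord (n + r) - ord n) * (Real.log T / (2 * Real.pi)) := by
        rw [hinv]
        linarith
      have a5 : ((r + H) * h) * (Real.log T / (2 * Real.pi)) <
          (ord (n + r) - ord n) * (Real.log T / (2 * Real.pi)) := by
        calc _ = (r + H) * (Real.log T / (2 * Real.pi) * h) := by ring
          _ < _ := a4
      have a6 := lt_of_mul_lt_mul_right a5 hpos.le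
      linarith)).trans (by
        apply mul_le_mul_of_nonneg_left _ (by positivity)
        exact add_le_add (hvar _ (by linarith) (by linarith)) (hvar _ (by linarith) (by linarith))))
  have c2 : (S2.card : ℝ) ≤ 4 * (C + 1) * (1 + Real.log (r + H)) / H ^ 2 * (T * Real.log T) := by
    rcases S2.eq_empty_or_nonempty with he | he
    · rw [he, Finset.card_empty, Nat.cast_zero]
      positivity
    have hall : ∀ n ∈ S2, ord (n + r) < ord n + (r - H) * h := by
      intro n hn
      obtain ⟨a1, a2⟩ := Finset.mem_filter.mp hn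
      have a3 := (hS n a1).2.2.2
      push Not at a2
      rw [abs_of_neg a2] at a3
      unfold ff yv at a3
      have a5 : (ord (n + r) - ord n) * (Real.log T / (2 * Real.pi)) <
          ((r - H) * h) * (Real.log T / (2 * Real.pi)) := by
        calc _ < (r - H) * 1 := by linarith
          _ = (r - H) * (Real.log T / (2 * Real.pi) * h) := by rw [hinv]
          _ = _ := by ring
      have a6 := lt_of_mul_lt_mul_right a5 hpos.le
      linarith
    obtain ⟨n, hn⟩ := he
    have hHr : H < r := by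
      have b1 := hall n hn
      have b2 := SG.ord_mono (hS n (Finset.mem_filter.mp hn).1).1 (Nat.le_add_right n r)
      have b3 : 0 < (r - H) * h := by linarith
      by_contra hcon
      push Not at hcon
      nlinarith
    refine conv S2.card ((down (by linarith) hH0 r S2
      (fun n hn => (hS n (Finset.mem_filter.mp hn).1).1)
      (fun n hn => (hS n (Finset.mem_filter.mp hn).1).2.1)
      (fun n hn => by
        have := (hS n (Finset.mem_filter.mp hn).1).2.2.1
        have h0 : 0 < H / 2 * h := by positivity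
        linarith) hall).trans (by
        apply mul_le_mul_of_nonneg_left _ (by positivity)
        exact add_le_add (hvar _ (by linarith) (by linarith)) (hvar _ (by linarith) (by linarith))))
  have e1 : (S.card : ℝ) = S1.card + S2.card := by exact_mod_cast hcard
  rw [e1]
  calc (S1.card : ℝ) + S2.card ≤ 4 * (C + 1) * (1 + Real.log (r + H)) / H ^ 2 * (T * Real.log T) +
      4 * (C + 1) * (1 + Real.log (r + H)) / H ^ 2 * (T * Real.log T) := add_le_add c1 c2
    _ = _ := by ring

end Pool.Agent.Y743.NC
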