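import Pool.Agent.Y743.NC.Global

/-! # Covariances of the unfolded gaps -/

set_option autoImplicit false

open Filter Topology MeasureTheory Set

namespace Pool.Agent.Y743.NC

open SG (ord NZ)
open LG (dlt)
open SP (RHs)
open Pool.Agent.Y743.LR

/-- covariance sums -/
noncomputable def Cov (c : ℕ → ℝ) (d N : ℕ) : ℝ := ∑ n ∈ Finset.Icc 1 N, c n * c (n + d)

lemma shift_null {g : ℕ → ℝ} (hg : Tendsto (fun n : ℕ => g n / n) atTop (𝓝 0)) (i : ℕ) :
    Tendsto (fun N : ℕ => (∑ n ∈ Finset.Icc 1 N, g (n + i) - ∑ n ∈ Finset.Icc 1 N, g n) / N)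
      atTop (𝓝 0) := by
  induction i with
  | zero => simp
  | succ i ih =>
    have h1 : ∀ N : ℕ, ∑ n ∈ Finset.Icc 1 N, g (n + (i + 1)) =
        ∑ n ∈ Finset.Icc 1 N, g (n + i) + g (N + 1 + i) - g (1 + i) := by
      intro N
      induction N with
      | zero => simp
      | succ N ihN =>
        rw [Finset.sum_Icc_succ_top (by omega), Finset.sum_Icc_succ_top (by omega), ihN,
          show N + 1 + (i + 1) = N + 1 + 1 + i by ring]
        ring
    have h2 : Tendsto (fun N : ℕ => g (N + 1 + i) / N) atTop (𝓝 0) := by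
      have h3 : Tendsto (fun N : ℕ => g (N + (1 + i)) / ((N + (1 + i) : ℕ) : ℝ)) atTop (𝓝 0) :=
        hg.comp (tendsto_add_atTop_nat (1 + i))
      have h4 : Tendsto (fun N : ℕ => 1 + ((1 + i : ℕ) : ℝ) * (1 / (N : ℝ))) atTop
          (𝓝 (1 + ((1 + i : ℕ) : ℝ) * 0)) :=
        (tendsto_one_div_atTop_nhds_zero_nat.const_mul _).const_add 1
      have h5 := h3.mul h4
      rw [zero_mul] at h5
      refine h5.congr' ?_
      filter_upwards [eventually_ge_atTop 1] with N hN
      have h6 : (N : ℝ) ≠ 0 := by positivity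
      have h7 : ((N + (1 + i) : ℕ) : ℝ) ≠ 0 := by positivity
      rw [show N + 1 + i = N + (1 + i) by ring]
      push_cast at h7 ⊢
      field_simp
    have h3 : Tendsto (fun N : ℕ => g (1 + i) / N) atTop (𝓝 0) :=
      tendsto_const_div_atTop_nhds_zero_nat _
    have h4 := (ih.add h2).sub h3
    rw [add_zero, sub_zero] at h4
    refine h4.congr fun N => ?_
    rw [h1]
    ring

lemma cov_shift {c : ℕ → ℝ} (hc : Tendsto (fun n : ℕ => c n ^ 2 / n) atTop (𝓝 0)) (d : ℕ) :
    Tendsto (fun n : ℕ => c n * c (n + d) / n) atTop (𝓝 0) := by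
  have h1 : Tendsto (fun n : ℕ => c (n + d) ^ 2 / n) atTop (𝓝 0) := by
    have h3 : Tendsto (fun N : ℕ => c (N + d) ^ 2 / ((N + d : ℕ) : ℝ)) atTop (𝓝 0) :=
      hc.comp (tendsto_add_atTop_nat d)
    have h4 : Tendsto (fun N : ℕ => 1 + (d : ℝ) * (1 / (N : ℝ))) atTop (𝓝 (1 + (d : ℝ) * 0)) :=
      (tendsto_one_div_atTop_nhds_zero_nat.const_mul _).const_add 1
    have h5 := h3.mul h4
    rw [zero_mul] at h5
    refine h5.congr' ?_
    filter_upwards [eventually_ge_atTop 1] with N hN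
    have h6 : (N : ℝ) ≠ 0 := by positivity
    have h7 : ((N + d : ℕ) : ℝ) ≠ 0 := by positivity
    push_cast at h7 ⊢
    field_simp
  have h2 := (hc.add h1)
  rw [add_zero] at h2
  refine squeeze_zero_norm (fun n => ?_) h2
  rw [Real.norm_eq_abs, abs_div, abs_of_nonneg (Nat.cast_nonneg n : (0 : ℝ) ≤ n), ← add_div]
  apply div_le_div_of_nonneg_right _ (Nat.cast_nonneg n)
  rw [abs_mul]
  nlinarith [sq_abs (c n), sq_abs (c (n + d)), sq_nonneg (|c n| - |c (n + d)|), sq_nonneg (c n),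
    sq_nonneg (c (n + d))]

/-- expanding the square of a sum of consecutive terms -/
lemma expand {c : ℕ → ℝ} (hc : Tendsto (fun n : ℕ => c n ^ 2 / n) atTop (𝓝 0)) (r : ℕ) :
    Tendsto (fun N : ℕ => (∑ n ∈ Finset.Icc 1 N, (∑ j ∈ Finset.range r, c (n + j)) ^ 2 -
      (r * Cov c 0 N + 2 * ∑ d ∈ Finset.Ico 1 r, ((r : ℝ) - d) * Cov c d N)) / N) atTop (𝓝 0) := by
  induction r with
  | zero => simp
  | succ r ih =>
    have hsh : ∀ j d : ℕ, Tendsto (fun N : ℕ =>
        (∑ n ∈ Finset.Icc 1 N, c (n + j) * c (n + j + d) - Cov c d N) / N) atTop (𝓝 0) :=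
      fun j d => shift_null (g := fun n => c n * c (n + d)) (cov_shift hc d) j
    have h1 : Tendsto (fun N : ℕ => ∑ j ∈ Finset.range r,
        (∑ n ∈ Finset.Icc 1 N, c (n + j) * c (n + j + (r - j)) - Cov c (r - j) N) / N)
        atTop (𝓝 (∑ j ∈ Finset.range r, 0)) := tendsto_finsetSum _ fun j _ => hsh j (r - j)
    rw [Finset.sum_const_zero] at h1
    have h2 := (ih.add (h1.const_mul 2)).add (hsh r 0)
    rw [mul_zero, add_zero, add_zero] at h2
    refine h2.congr fun N => ?_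
    rw [← Finset.sum_div, ← mul_div_assoc, ← add_div, ← add_div]
    congr 1
    have e1 : ∑ n ∈ Finset.Icc 1 N, (∑ j ∈ Finset.range (r + 1), c (n + j)) ^ 2 =
        ∑ n ∈ Finset.Icc 1 N, (∑ j ∈ Finset.range r, c (n + j)) ^ 2 +
        2 * ∑ j ∈ Finset.range r, ∑ n ∈ Finset.Icc 1 N, c (n + j) * c (n + j + (r - j)) +
        ∑ n ∈ Finset.Icc 1 N, c (n + r) * c (n + r + 0) := by
      rw [Finset.sum_comm, Finset.mul_sum, ← Finset.sum_add_distrib, ← Finset.sum_add_distrib]
      refine Finset.sum_congr rfl fun n _ => ?_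
      have e2 : ∑ j ∈ Finset.range r, c (n + j) * c (n + j + (r - j)) =
          (∑ j ∈ Finset.range r, c (n + j)) * c (n + r) := by
        rw [Finset.sum_mul]
        refine Finset.sum_congr rfl fun j hj => ?_
        rw [Finset.mem_range] at hj
        rw [show n + j + (r - j) = n + r by omega]
      rw [e2, Finset.sum_range_succ, add_zero]
      ring
    have e3 : ∑ j ∈ Finset.range r, Cov c (r - j) N = ∑ d ∈ Finset.Ico 1 (r + 1), Cov c d N := by
      refine Finset.sum_nbij' (fun j => r - j) (fun d => r - d) ?_ ?_ ?_ ?_ ?_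
      · intro j hj
        rw [Finset.mem_range] at hj
        rw [Finset.mem_Ico]
        omega
      · intro d hd
        rw [Finset.mem_Ico] at hd
        rw [Finset.mem_range]
        omega
      · intro j hj
        rw [Finset.mem_range] at hj
        omega
      · intro d hd
        rw [Finset.mem_Ico] at hd
        omega
      · intro j _
        rfl
    have e4 : ∑ d ∈ Finset.Ico 1 (r + 1), (((r + 1 : ℕ) : ℝ) - d) * Cov c d N =
        ∑ d ∈ Finset.Ico 1 r, ((r : ℝ) - d) * Cov c d N +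
          ∑ d ∈ Finset.Ico 1 (r + 1), Cov c d N := by
      rcases Nat.eq_zero_or_pos r with h | h
      · subst h; simp
      · have e5 : ∑ d ∈ Finset.Ico 1 r, ((r : ℝ) - d) * Cov c d N =
            ∑ d ∈ Finset.Ico 1 (r + 1), ((r : ℝ) - d) * Cov c d N := by
          rw [Finset.sum_Ico_succ_top h, sub_self, zero_mul, add_zero]
        rw [e5, ← Finset.sum_add_distrib]
        refine Finset.sum_congr rfl fun d _ => ?_
        push_cast
        ring
    rw [e1, e4, Finset.sum_sub_distrib, e3]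
    push_cast
    ring

/-- the deviations of the unfolded gaps are small compared with the index -/
lemma dev_small (hRH : RHs) : Tendsto (fun n : ℕ => (dlt n - 1) ^ 2 / n) atTop (𝓝 0) := by
  obtain ⟨C, hC, h⟩ := PR.gap_log hRH
  have h1 : Tendsto (fun n : ℕ => (2 * C ^ 2 + 2) * (1 + Real.log n) ^ 2 / n) atTop (𝓝 0) := by
    have h2 : Tendsto (fun x : ℝ => (1 + Real.log x) ^ 2 / x) atTop (𝓝 0) := by
      have a1 : Tendsto (fun x : ℝ => 1 / x) atTop (𝓝 0) := by
        simpa using tendsto_inv_atTop_zero (𝕜 := ℝ)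
      have a2 : Tendsto (fun x : ℝ => Real.log x ^ 1 / x) atTop (𝓝 0) := by
        have := (Real.isLittleO_pow_log_id_atTop (n := 1)).tendsto_div_nhds_zero
        exact this
      have a3 : Tendsto (fun x : ℝ => Real.log x ^ 2 / x) atTop (𝓝 0) := by
        have := (Real.isLittleO_pow_log_id_atTop (n := 2)).tendsto_div_nhds_zero
        exact this
      have a4 := (a1.add (a2.const_mul 2)).add a3
      rw [mul_zero, add_zero, add_zero] at a4
      refine a4.congr fun x => ?_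
      ring
    have h3 := (h2.comp tendsto_natCast_atTop_atTop).const_mul (2 * C ^ 2 + 2)
    rw [mul_zero] at h3
    refine h3.congr fun n => ?_
    simp only [Function.comp]
    ring
  refine squeeze_zero_norm' ?_ h1
  filter_upwards [ord_tendsto.eventually_ge_atTop 1, eventually_ge_atTop 1] with n a1 a2
  have hl : 0 ≤ Real.log n := Real.log_nonneg (by exact_mod_cast a2)
  have h2 := h n a2
  have h3 := dlt_nonneg a2 a1
  rw [Real.norm_of_nonneg (by positivity)]
  apply div_le_div_of_nonneg_right _ (Nat.cast_nonneg n)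
  have h4 : (dlt n) ^ 2 ≤ (C * (1 + Real.log n)) ^ 2 := pow_le_pow_left₀ h3 h2 2
  have h5 : (1 : ℝ) ≤ (1 + Real.log n) ^ 2 := one_le_pow₀ (by linarith)
  nlinarith [sq_nonneg (dlt n + 1)]

lemma FF_eq (r n : ℕ) : FF r n = (∑ j ∈ Finset.range r, (dlt (n + j) - 1)) ^ 2 := by
  unfold FF
  rw [Finset.sum_sub_distrib, Finset.sum_const, Finset.card_range, nsmul_eq_mul, mul_one]

/-- **sum rule for the covariances of the unfolded gaps** -/
theorem sumrule (hRH : RHs) : ∃ C : ℝ, 1 ≤ C ∧ ∀ r : ℕ, 1 ≤ r → ∀ᶠ N : ℕ in atTop,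
    ∑ n ∈ Finset.Icc 1 N, (∑ j ∈ Finset.range r, (dlt (n + j) - 1)) ^ 2 ≤
      C * (1 + Real.log r) ^ 2 * N ∧
    |Cov (fun n => dlt n - 1) 0 N + 2 * ∑ d ∈ Finset.Ico 1 r, (1 - (d : ℝ) / r) *
      Cov (fun n => dlt n - 1) d N| ≤ C * (1 + Real.log r) ^ 2 / r * N := by
  obtain ⟨C, hC, h⟩ := moment hRH
  refine ⟨C + 1, by linarith, fun r hr => ?_⟩
  have hr0 : (0 : ℝ) < r := by exact_mod_cast hr
  have hr1 : (1 : ℝ) ≤ r := by exact_mod_cast hr
  have hlr : 0 ≤ Real.log r := Real.log_nonneg hr1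
  have hΛ : 1 ≤ (1 + Real.log r) ^ 2 := one_le_pow₀ (by linarith)
  set Λ : ℝ := (1 + Real.log r) ^ 2 with hΛdef
  have hexp := expand (dev_small hRH) r
  have h2 : ∀ᶠ N : ℕ in atTop, |(∑ n ∈ Finset.Icc 1 N, (∑ j ∈ Finset.range r,
      (fun n => dlt n - 1) (n + j)) ^ 2 - (r * Cov (fun n => dlt n - 1) 0 N +
      2 * ∑ d ∈ Finset.Ico 1 r, ((r : ℝ) - d) * Cov (fun n => dlt n - 1) d N)) / N| < 1 := by
    have := hexp.abs
    rw [abs_zero] at this
    exact this.eventually_lt_const one_pos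
  filter_upwards [h r hr, h2, eventually_ge_atTop 1] with N h3 h4 h5
  have hN : (0 : ℝ) < N := by exact_mod_cast h5
  have e1 : ∑ n ∈ Finset.Icc 1 N, FF r n =
      ∑ n ∈ Finset.Icc 1 N, (∑ j ∈ Finset.range r, (dlt (n + j) - 1)) ^ 2 :=
    Finset.sum_congr rfl fun n _ => FF_eq r n
  rw [e1] at h3
  set S : ℝ := ∑ n ∈ Finset.Icc 1 N, (∑ j ∈ Finset.range r, (dlt (n + j) - 1)) ^ 2 with hS
  have hS0 : 0 ≤ S := Finset.sum_nonneg fun n _ => sq_nonneg _
  have hΛN : (N : ℝ) ≤ Λ * N := le_mul_of_one_le_left hN.le hΛ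
  refine ⟨by linarith, ?_⟩
  rw [abs_div, abs_of_pos hN, div_lt_one hN] at h4
  have e2 : r * Cov (fun n => dlt n - 1) 0 N +
      2 * ∑ d ∈ Finset.Ico 1 r, ((r : ℝ) - d) * Cov (fun n => dlt n - 1) d N =
      r * (Cov (fun n => dlt n - 1) 0 N + 2 * ∑ d ∈ Finset.Ico 1 r, (1 - (d : ℝ) / r) *
      Cov (fun n => dlt n - 1) d N) := by
    rw [mul_add, mul_left_comm, Finset.mul_sum (Finset.Ico 1 r) _ (r : ℝ)]
    congr 2
    refine Finset.sum_congr rfl fun d _ => ?_
    field_simp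
  rw [e2] at h4
  set X : ℝ := Cov (fun n => dlt n - 1) 0 N + 2 * ∑ d ∈ Finset.Ico 1 r, (1 - (d : ℝ) / r) *
      Cov (fun n => dlt n - 1) d N with hX
  have h4' : |S - r * X| < N := h4
  obtain ⟨a1, a2⟩ := abs_lt.mp h4'
  have h6 : |r * X| ≤ (C + 1) * Λ * N := by
    rw [abs_le]
    constructor
    · have : 0 ≤ C * Λ * N := by positivity
      nlinarith
    · nlinarith
  rw [abs_mul, abs_of_pos hr0] at h6
  rw [div_mul_eq_mul_div, le_div_iff₀ hr0]
  linarith

/-- the variance of the unfolded gaps is bounded below -/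
theorem var_low (hRH : RiemannHypothesis) : ∃ c : ℝ, 0 < c ∧ ∀ᶠ N : ℕ in atTop,
    c * N ≤ Cov (fun n => dlt n - 1) 0 N := by
  obtain ⟨ε, hε, h⟩ := lattice hRH 0
  refine ⟨ε ^ 3, by positivity, ?_⟩
  filter_upwards [h] with N h1
  have h2 := h1 (fun _ => 0) 1 (by simp)
  simp only [sub_zero, sub_self] at h2
  have h3 : {n : ℕ | 1 ≤ n ∧ n ≤ N ∧ ε ≤ |dlt n - 1|} =
      ((Finset.Icc 1 N).filter fun n => ε ≤ |dlt n - 1| : Finset ℕ) := by
    ext n
    simp only [mem_ofPred_eq, Finset.coe_filter, Finset.mem_Icc]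
    tauto
  rw [h3, Set.ncard_coe_finset] at h2
  have h4 : ε ^ 2 * (((Finset.Icc 1 N).filter fun n => ε ≤ |dlt n - 1|).card : ℝ) ≤
      ∑ n ∈ Finset.Icc 1 N, (dlt n - 1) * (dlt (n + 0) - 1) := by
    calc _ = ∑ _n ∈ (Finset.Icc 1 N).filter fun n => ε ≤ |dlt n - 1|, ε ^ 2 := by
          rw [Finset.sum_const, nsmul_eq_mul]
          ring
      _ ≤ ∑ n ∈ (Finset.Icc 1 N).filter fun n => ε ≤ |dlt n - 1|,
          (dlt n - 1) * (dlt (n + 0) - 1) := by
          refine Finset.sum_le_sum fun n hn => ?_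
          rw [Finset.mem_filter] at hn
          rw [add_zero, ← sq, ← sq_abs (dlt n - 1)]
          exact pow_le_pow_left₀ hε.le hn.2 2
      _ ≤ _ := by
          apply Finset.sum_le_sum_of_subset_of_nonneg (Finset.filter_subset _ _)
          intro n _ _
          rw [add_zero]
          exact mul_self_nonneg _
  calc ε ^ 3 * N = ε ^ 2 * (ε * N) := by ring
    _ ≤ _ := mul_le_mul_of_nonneg_left h2 (by positivity)
    _ ≤ _ := h4

/-- **negative correlation of the unfolded gaps at a bounded distance** -/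
theorem negative (hRH : RiemannHypothesis) : ∃ r : ℕ, 2 ≤ r ∧ ∃ c : ℝ, 0 < c ∧
    ∀ᶠ N : ℕ in atTop, ∃ d : ℕ, 1 ≤ d ∧ d < r ∧ Cov (fun n => dlt n - 1) d N ≤ -(c * N) := by
  obtain ⟨C, hC, h⟩ := sumrule (H177.Lat.rhs_of hRH)
  obtain ⟨c, hc, hlow⟩ := var_low hRH
  have h1 : Tendsto (fun r : ℕ => C * (1 + Real.log r) ^ 2 / r) atTop (𝓝 0) := by
    have h2 : Tendsto (fun x : ℝ => (1 + Real.log x) ^ 2 / x) atTop (𝓝 0) := by
      have a1 : Tendsto (fun x : ℝ => 1 / x) atTop (𝓝 0) := by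
        simpa using tendsto_inv_atTop_zero (𝕜 := ℝ)
      have a2 : Tendsto (fun x : ℝ => Real.log x ^ 1 / x) atTop (𝓝 0) :=
        (Real.isLittleO_pow_log_id_atTop (n := 1)).tendsto_div_nhds_zero
      have a3 : Tendsto (fun x : ℝ => Real.log x ^ 2 / x) atTop (𝓝 0) :=
        (Real.isLittleO_pow_log_id_atTop (n := 2)).tendsto_div_nhds_zero
      have a4 := (a1.add (a2.const_mul 2)).add a3
      rw [mul_zero, add_zero, add_zero] at a4
      refine a4.congr fun x => ?_
      ring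
    have h3 := (h2.comp tendsto_natCast_atTop_atTop).const_mul C
    rw [mul_zero] at h3
    refine h3.congr fun n => ?_
    simp only [Function.comp]
    ring
  obtain ⟨r, hr, hr2⟩ := ((h1.eventually_lt_const (by positivity : 0 < c / 2)).and
    (eventually_ge_atTop 2)).exists
  have hr0 : (0 : ℝ) < r := by positivity
  refine ⟨r, hr2, c / (4 * r), by positivity, ?_⟩
  filter_upwards [h r (by omega), hlow, eventually_ge_atTop 1] with N h2 h3 h4
  have hN : (0 : ℝ) < N := by exact_mod_cast h4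
  by_contra hcon
  push Not at hcon
  have h5 := (abs_le.mp h2.2).2
  have h6 : C * (1 + Real.log r) ^ 2 / r * N ≤ c / 2 * N :=
    mul_le_mul_of_nonneg_right hr.le hN.le
  have h7 : -(c / 4 * N) < ∑ d ∈ Finset.Ico 1 r, (1 - (d : ℝ) / r) *
      Cov (fun n => dlt n - 1) d N := by
    have h8 : ∀ d ∈ Finset.Ico 1 r, -(c / (4 * r) * N) <
        (1 - (d : ℝ) / r) * Cov (fun n => dlt n - 1) d N := by
      intro d hd
      rw [Finset.mem_Ico] at hd
      have h9 := hcon d hd.1 hd.2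
      have h10 : (0 : ℝ) < 1 - (d : ℝ) / r := by
        rw [sub_pos, div_lt_one hr0]
        exact_mod_cast hd.2
      have h11 : 1 - (d : ℝ) / r ≤ 1 := by
        have : 0 ≤ (d : ℝ) / r := by positivity
        linarith
      have h12 : 0 < c / (4 * r) * N := by positivity
      nlinarith
    have h9 : (Finset.Ico 1 r).Nonempty := ⟨1, by rw [Finset.mem_Ico]; omega⟩
    have h10 := Finset.sum_lt_sum_of_nonempty h9 h8
    rw [Finset.sum_const, Nat.card_Ico, nsmul_eq_mul] at h10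
    have h11 : ((r - 1 : ℕ) : ℝ) ≤ r := by exact_mod_cast Nat.sub_le r 1
    have h12 : ((r - 1 : ℕ) : ℝ) * (c / (4 * r) * N) ≤ r * (c / (4 * r) * N) :=
      mul_le_mul_of_nonneg_right h11 (by positivity)
    have h13 : (r : ℝ) * (c / (4 * r) * N) = c / 4 * N := by field_simp
    linarith
  linarith

end Pool.Agent.Y743.NC
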