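import Pool.Agent.Y743.NC.Block

/-! # Second moments of the spacings of the `r`-th neighbours -/

set_option autoImplicit false

open Filter Topology MeasureTheory Set

namespace Pool.Agent.Y743.NC

open SG (ord NZ)
open LG (dlt)
open SP (RHs)
open Pool.Agent.Y743.LR

/-- squared deviation of the unfolded spacing of the `r`-th neighbours -/
noncomputable def FF (r n : ℕ) : ℝ := (∑ j ∈ Finset.range r, dlt (n + j) - r) ^ 2

lemma FF_nonneg (r n : ℕ) : 0 ≤ FF r n := sq_nonneg _

lemma dlt_nonneg {n : ℕ} (hn : 1 ≤ n) (h : 1 ≤ ord n) : 0 ≤ dlt n := by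
  unfold LG.dlt
  have ho := ord_step hn
  have hpi := Real.pi_pos
  apply div_nonneg _ (by positivity)
  have := mul_le_mul ho (Real.log_le_log (by linarith) ho) (Real.log_nonneg h) (by linarith)
  linarith

lemma edge_pt (hRH : RHs) {κ D C : ℝ} (hC : 0 < C) : ∃ K : ℝ, 1 ≤ K ∧ ∀ (r : ℕ) (T : ℝ), 1 ≤ r →
    Good κ D C r T → Real.log C ≤ Real.log T →
    ∀ n, NZ T < n → n ≤ NZ (2 * T) → FF r n ≤ (r * (K * Real.log T)) ^ 2 := by
  obtain ⟨C', hC', h⟩ := PR.gap_log hRH
  refine ⟨4 * C' + 1, by linarith, fun r T hr hg hCT n hn1 hn2 => ?_⟩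
  have hT := hg.hT
  have hL := hg.lgT
  have hr1 : (1 : ℝ) ≤ r := by exact_mod_cast hr
  have h1 : ∀ j ∈ Finset.range r, 0 ≤ dlt (n + j) ∧ dlt (n + j) ≤ 4 * C' * Real.log T := by
    intro j hj
    rw [Finset.mem_range] at hj
    have hm1 : 1 ≤ n + j := by omega
    constructor
    · apply dlt_nonneg hm1
      have h2 : ord n ≤ ord (n + j) := SG.ord_mono (by omega) (Nat.le_add_right _ _)
      have h3 : T < ord n := by
        by_contra hcon
        push Not at hcon
        have := (SG.ord_le_iff (by omega) _).mp hcon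
        omega
      linarith
    · refine (h (n + j) hm1).trans ?_
      have h23 : NZ (2 * T) ≤ NZ (3 * T) := SG.NZ_mono (by linarith)
      have h2 : n + j ≤ NZ (3 * T) + r := by omega
      have h3 : ((n + j : ℕ) : ℝ) ≤ C * (T * Real.log T) := by
        have : ((n + j : ℕ) : ℝ) ≤ NZ (3 * T) + r := by exact_mod_cast h2
        exact this.trans hg.card
      have h4 : Real.log ((n + j : ℕ) : ℝ) ≤ 3 * Real.log T := by
        have h5 : (0 : ℝ) < ((n + j : ℕ) : ℝ) := by exact_mod_cast hm1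
        refine (Real.log_le_log h5 h3).trans ?_
        have h6 : 0 < Real.log T := by linarith
        rw [Real.log_mul hC.ne' (by positivity), Real.log_mul (by linarith) h6.ne']
        have := Real.log_le_sub_one_of_pos h6
        linarith
      nlinarith
  have h2 : 0 ≤ ∑ j ∈ Finset.range r, dlt (n + j) := Finset.sum_nonneg fun j hj => (h1 j hj).1
  have h3 : ∑ j ∈ Finset.range r, dlt (n + j) ≤ r * (4 * C' * Real.log T) := by
    refine (Finset.sum_le_sum fun j hj => (h1 j hj).2).trans ?_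
    rw [Finset.sum_const, Finset.card_range, nsmul_eq_mul]
  unfold FF
  have h4 : (r : ℝ) ≤ r * Real.log T := le_mul_of_one_le_right (by linarith) hL
  have h5 : 0 ≤ (r : ℝ) * (4 * C' * Real.log T) := by positivity
  apply sq_le_sq'
  · nlinarith
  · nlinarith

lemma in_pt {κ D C T : ℝ} (hκ : 0 < κ) (hD : 0 < D) (hκ1 : κ ≤ 1) {r : ℕ} (hg : Good κ D C r T)
    {n : ℕ} (hn1 : NZ T < n) (hn2 : n ≤ NZ (2 * T)) :
    FF r n ≤ 2 * ff T r n ^ 2 + 2 * ((|Real.log κ| + |Real.log D| + 1) / Real.log T) ^ 2 * r *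
      ∑ j ∈ Finset.range r, (1 + dif (yv T) (n + j) ^ 3) := by
  have hT := hg.hT
  have hL := hg.lgT
  set τ : ℝ := (|Real.log κ| + |Real.log D| + 1) / Real.log T with hτ
  have hτ0 : 0 ≤ τ := by positivity
  have hTn : T < ord n := by
    by_contra hcon
    push Not at hcon
    have := (SG.ord_le_iff (by omega) _).mp hcon
    omega
  have h1 : ∀ j ∈ Finset.range r, |dif (yv T) (n + j) - dlt (n + j)| ≤ τ * dif (yv T) (n + j) := by
    intro j hj
    rw [Finset.mem_range] at hj
    have h2 : ord n ≤ ord (n + j) := SG.ord_mono (by omega) (Nat.le_add_right _ _)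
    apply dlt_close hκ hD (by linarith) (by omega)
    · nlinarith
    · have := hg.n3
      exact (SG.ord_le_iff (by omega) _).mpr (by omega)
  set e : ℝ := ∑ j ∈ Finset.range r, (dif (yv T) (n + j) - dlt (n + j)) with he
  have h2 : |e| ≤ τ * ∑ j ∈ Finset.range r, dif (yv T) (n + j) := by
    rw [Finset.mul_sum]
    exact (Finset.abs_sum_le_sum_abs _ _).trans (Finset.sum_le_sum h1)
  have e1 : ∑ j ∈ Finset.range r, dlt (n + j) - r = ff T r n - e := by
    rw [ff_eq, he, Finset.sum_sub_distrib]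
    ring
  have h3 : e ^ 2 ≤ τ ^ 2 * (r * ∑ j ∈ Finset.range r, (1 + dif (yv T) (n + j) ^ 3)) := by
    rw [← sq_abs]
    refine (pow_le_pow_left₀ (abs_nonneg _) h2 2).trans ?_
    rw [mul_pow]
    apply mul_le_mul_of_nonneg_left _ (by positivity)
    have h4 := sq_sum_le_card_mul_sum_sq (s := Finset.range r) (f := fun j => dif (yv T) (n + j))
    rw [Finset.card_range] at h4
    refine h4.trans ?_
    apply mul_le_mul_of_nonneg_left _ (Nat.cast_nonneg r)
    refine Finset.sum_le_sum fun j hj => ?_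
    have h5 : 0 ≤ dif (yv T) (n + j) := dif_nonneg (by linarith) (by omega)
    rcases le_total (dif (yv T) (n + j)) 1 with h6 | h6
    · have : 0 ≤ dif (yv T) (n + j) ^ 3 := by positivity
      nlinarith
    · have : dif (yv T) (n + j) ^ 2 ≤ dif (yv T) (n + j) ^ 3 := pow_le_pow_right₀ h6 (by norm_num)
      linarith
  unfold FF
  rw [e1]
  nlinarith [sq_nonneg (ff T r n + e)]

/-- second moments in a dyadic block -/
theorem block (hRH : RHs) : ∃ C0 : ℝ, 1 ≤ C0 ∧ ∀ r : ℕ, 1 ≤ r → ∃ T0 : ℝ, 10 ≤ T0 ∧ ∀ T : ℝ,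
    T0 ≤ T → ∑ n ∈ Finset.Ioc (NZ T) (NZ (2 * T)), FF r n ≤
      C0 * (1 + Real.log r) ^ 2 * (T * Real.log T) := by
  obtain ⟨κ, D, C, hκ, hκ1, hD, hC, hg⟩ := good_ev
  obtain ⟨C', hC', hcube⟩ := gam_cube (D := D) hRH hκ hC
  obtain ⟨C2, hC2, hin⟩ := inner hRH
  obtain ⟨K, hK, hedge⟩ := edge_pt (κ := κ) (D := D) hRH hC
  obtain ⟨Cu, hCu, hunit⟩ := unit_count
  have hD0 : 0 < D := by linarith
  refine ⟨2 * C2 + 2, by linarith, fun r hr => ?_⟩
  obtain ⟨Tg, hTg, hgood⟩ := hg r
  obtain ⟨Ti, hTi, hinn⟩ := hin r hr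
  have hr1 : (1 : ℝ) ≤ r := by exact_mod_cast hr
  have hlr : 0 ≤ Real.log r := Real.log_nonneg hr1
  set M : ℝ := |Real.log κ| + |Real.log D| + 1 with hM
  obtain ⟨T3, hT3⟩ := (Real.tendsto_log_atTop.eventually_ge_atTop
    (max (max 1 (Real.log C)) (2 * M ^ 2 * r ^ 2 * (C + C')))).exists_forall_of_atTop
  have hlo : ∀ᶠ T : ℝ in atTop, 3 * Cu * (r * K) ^ 2 * (Real.log T) ^ 2 ≤ T := by
    have hc : 0 < 1 / (3 * Cu * (r * K) ^ 2) := by positivity
    have h1 := (Real.isLittleO_pow_log_id_atTop (n := 2)).bound hc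
    filter_upwards [h1, eventually_ge_atTop 1] with T h2 h3
    rw [id, Real.norm_of_nonneg (by positivity : 0 ≤ Real.log T ^ 2),
      Real.norm_of_nonneg (by linarith : 0 ≤ T), div_mul_eq_mul_div, one_mul,
      le_div_iff₀ (by positivity)] at h2
    linarith
  obtain ⟨T4, hT4⟩ := hlo.exists_forall_of_atTop
  refine ⟨max (max Tg Ti) (max T3 T4), (hTg.trans (le_max_left _ _)).trans (le_max_left _ _),
    fun T hT => ?_⟩
  have q1 : Tg ≤ T := ((le_max_left _ _).trans (le_max_left _ _)).trans hT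
  have q2 : Ti ≤ T := ((le_max_right _ _).trans (le_max_left _ _)).trans hT
  have q3 : T3 ≤ T := ((le_max_left _ _).trans (le_max_right _ _)).trans hT
  have q4 : T4 ≤ T := ((le_max_right _ _).trans (le_max_right _ _)).trans hT
  have hgT := hgood T q1
  have hT10 := hgT.hT
  have hL1 := hgT.lgT
  have hLC : Real.log C ≤ Real.log T :=
    ((le_max_right _ _).trans (le_max_left _ _)).trans (hT3 T q3)
  have hLM : 2 * M ^ 2 * r ^ 2 * (C + C') ≤ Real.log T := (le_max_right _ _).trans (hT3 T q3)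
  have hTL : 0 < T * Real.log T := by positivity
  set P : ℕ → Prop := fun n => T + 1 ≤ ord n ∧ ord n + 1 ≤ 2 * T with hP
  have hsplit := Finset.sum_filter_add_sum_filter_not (Finset.Ioc (NZ T) (NZ (2 * T))) P (FF r)
  rw [← hsplit]
  -- interior
  have hI : ∑ n ∈ (Finset.Ioc (NZ T) (NZ (2 * T))).filter P, FF r n ≤
      2 * (C2 * (1 + Real.log r) ^ 2 * (T * Real.log T)) + T * Real.log T := by
    set I := (Finset.Ioc (NZ T) (NZ (2 * T))).filter P with hIdef
    have hmem : ∀ n ∈ I, NZ T < n ∧ n ≤ NZ (2 * T) ∧ T + 1 ≤ ord n ∧ ord n + 1 ≤ 2 * T := by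
      intro n hn
      rw [hIdef, Finset.mem_filter, Finset.mem_Ioc] at hn
      exact ⟨hn.1.1, hn.1.2, hn.2.1, hn.2.2⟩
    have h1 : ∑ n ∈ I, FF r n ≤ ∑ n ∈ I, (2 * ff T r n ^ 2 + 2 * (M / Real.log T) ^ 2 * r *
      ∑ j ∈ Finset.range r, (1 + dif (yv T) (n + j) ^ 3)) :=
      Finset.sum_le_sum fun n hn => in_pt hκ hD0 hκ1 hgT (hmem n hn).1 (hmem n hn).2.1
    refine h1.trans ?_
    rw [Finset.sum_add_distrib, ← Finset.mul_sum, ← Finset.mul_sum]
    have h2 := hinn T q2 I fun n hn => ⟨by have := (hmem n hn).1; omega, (hmem n hn).2.2.1,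
      (hmem n hn).2.2.2⟩
    have h3 : ∑ n ∈ I, ∑ j ∈ Finset.range r, (1 + dif (yv T) (n + j) ^ 3) ≤
        r * ((C + C') * (T * Real.log T)) := by
      rw [Finset.sum_comm]
      have h4 : ∀ j ∈ Finset.range r, ∑ n ∈ I, (1 + dif (yv T) (n + j) ^ 3) ≤
          (C + C') * (T * Real.log T) := by
        intro j hj
        rw [Finset.mem_range] at hj
        rw [Finset.sum_add_distrib, Finset.sum_const, nsmul_eq_mul, mul_one,
          sum_shift I j (fun m => dif (yv T) m ^ 3)]
        have h23 : NZ (2 * T) ≤ NZ (3 * T) := SG.NZ_mono (by linarith)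
        have h5 := hcube r T hgT (I.image (· + j)) fun m hm => by
          rw [Finset.mem_image] at hm
          obtain ⟨n, hn, rfl⟩ := hm
          have := hmem n hn
          omega
        have h6 : (I.card : ℝ) ≤ C * (T * Real.log T) := by
          have h1 : I ⊆ Finset.Ioc (NZ T) (NZ (2 * T)) := Finset.filter_subset _ _
          have h2 := Finset.card_le_card h1
          rw [Nat.card_Ioc] at h2
          have h3 : I.card ≤ NZ (3 * T) := by omega
          have h4 : (I.card : ℝ) ≤ NZ (3 * T) := by exact_mod_cast h3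
          have h5 := hgT.card
          linarith
        linarith
      refine (Finset.sum_le_sum h4).trans ?_
      rw [Finset.sum_const, Finset.card_range, nsmul_eq_mul]
    have h4 : 2 * (M / Real.log T) ^ 2 * r * ∑ n ∈ I, ∑ j ∈ Finset.range r,
        (1 + dif (yv T) (n + j) ^ 3) ≤ T * Real.log T := by
      calc 2 * (M / Real.log T) ^ 2 * r * ∑ n ∈ I, ∑ j ∈ Finset.range r,
            (1 + dif (yv T) (n + j) ^ 3) ≤ 2 * (M / Real.log T) ^ 2 * r *
              (r * ((C + C') * (T * Real.log T))) :=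
            mul_le_mul_of_nonneg_left h3 (by positivity)
        _ = (2 * M ^ 2 * r ^ 2 * (C + C')) / Real.log T ^ 2 * (T * Real.log T) := by
            field_simp
        _ ≤ 1 * (T * Real.log T) := by
            apply mul_le_mul_of_nonneg_right _ hTL.le
            rw [div_le_one (by positivity)]
            nlinarith
        _ = _ := one_mul _
    linarith
  -- edges
  have hE : ∑ n ∈ (Finset.Ioc (NZ T) (NZ (2 * T))).filter (fun n => ¬ P n), FF r n ≤
      T * Real.log T := by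
    set E := (Finset.Ioc (NZ T) (NZ (2 * T))).filter (fun n => ¬ P n) with hEdef
    have hsub : E ⊆ Finset.Ioc (NZ T) (NZ (T + 1)) ∪ Finset.Ioc (NZ (2 * T - 1)) (NZ (2 * T)) := by
      intro n hn
      rw [hEdef, Finset.mem_filter, Finset.mem_Ioc] at hn
      obtain ⟨⟨a1, a2⟩, a3⟩ := hn
      rw [Finset.mem_union, Finset.mem_Ioc, Finset.mem_Ioc]
      by_cases h1 : T + 1 ≤ ord n
      · right
        refine ⟨?_, a2⟩
        by_contra hcon
        push Not at hcon
        have := (SG.ord_le_iff (by omega) _).mpr hcon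
        exact a3 ⟨h1, by linarith⟩
      · left
        push Not at h1
        exact ⟨a1, (SG.ord_le_iff (by omega) _).mp h1.le⟩
    have hcard : (E.card : ℝ) ≤ 3 * Cu * Real.log T := by
      have h1 := (Finset.card_le_card hsub).trans (Finset.card_union_le _ _)
      rw [Nat.card_Ioc, Nat.card_Ioc] at h1
      have m1 : NZ T ≤ NZ (T + 1) := SG.NZ_mono (by linarith)
      have m2 : NZ (2 * T - 1) ≤ NZ (2 * T) := SG.NZ_mono (by linarith)
      have u1 := hunit T (by linarith)
      have u2 := hunit (2 * T - 1) (by linarith)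
      rw [show 2 * T - 1 + 1 = 2 * T by ring] at u2
      have h2 : (E.card : ℝ) ≤ ((NZ (T + 1) : ℝ) - NZ T) + ((NZ (2 * T) : ℝ) - NZ (2 * T - 1)) := by
        have h3 : (E.card : ℝ) ≤ ((NZ (T + 1) - NZ T + (NZ (2 * T) - NZ (2 * T - 1)) : ℕ) : ℝ) := by
          exact_mod_cast h1
        rw [Nat.cast_add, Nat.cast_sub m1, Nat.cast_sub m2] at h3
        exact h3
      have h3 : Real.log (2 * T - 1) ≤ 2 * Real.log T := by
        have : Real.log (2 * T - 1) ≤ Real.log (T ^ 2) :=
          Real.log_le_log (by linarith) (by nlinarith)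
        rw [Real.log_pow] at this
        exact_mod_cast this
      have h4 : Cu * Real.log (2 * T - 1) ≤ Cu * (2 * Real.log T) :=
        mul_le_mul_of_nonneg_left h3 hCu.le
      linarith
    have h1 : ∀ n ∈ E, FF r n ≤ (r * (K * Real.log T)) ^ 2 := by
      intro n hn
      rw [hEdef, Finset.mem_filter, Finset.mem_Ioc] at hn
      exact hedge r T hr hgT hLC n hn.1.1 hn.1.2
    refine (Finset.sum_le_sum h1).trans ?_
    rw [Finset.sum_const, nsmul_eq_mul]
    have h2 := hT4 T q4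
    calc (E.card : ℝ) * (r * (K * Real.log T)) ^ 2 ≤ 3 * Cu * Real.log T *
          (r * (K * Real.log T)) ^ 2 := mul_le_mul_of_nonneg_right hcard (sq_nonneg _)
      _ = 3 * Cu * (r * K) ^ 2 * (Real.log T) ^ 2 * Real.log T := by ring
      _ ≤ T * Real.log T := mul_le_mul_of_nonneg_right h2 (by linarith)
  have hΛ : 1 ≤ (1 + Real.log r) ^ 2 := one_le_pow₀ (by linarith)
  have h5 : 2 * (T * Real.log T) ≤ 2 * (1 + Real.log r) ^ 2 * (T * Real.log T) := by
    apply mul_le_mul_of_nonneg_right _ hTL.le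
    linarith
  calc _ ≤ (2 * (C2 * (1 + Real.log r) ^ 2 * (T * Real.log T)) + T * Real.log T) +
        T * Real.log T := add_le_add hI hE
    _ = 2 * C2 * (1 + Real.log r) ^ 2 * (T * Real.log T) + 2 * (T * Real.log T) := by ring
    _ ≤ 2 * C2 * (1 + Real.log r) ^ 2 * (T * Real.log T) +
        2 * (1 + Real.log r) ^ 2 * (T * Real.log T) := by linarith
    _ = _ := by ring

lemma Icc_Ioc (N : ℕ) : Finset.Icc 1 N = Finset.Ioc 0 N := by
  ext n
  rw [Finset.mem_Icc, Finset.mem_Ioc]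
  omega

/-- **mean squares of the unfolded spacings of the `r`-th neighbours** -/
theorem moment (hRH : RHs) : ∃ C : ℝ, 1 ≤ C ∧ ∀ r : ℕ, 1 ≤ r → ∀ᶠ N : ℕ in atTop,
    ∑ n ∈ Finset.Icc 1 N, FF r n ≤ C * (1 + Real.log r) ^ 2 * N := by
  obtain ⟨C0, hC0, hblock⟩ := block hRH
  obtain ⟨c, T1, hc, hT1, hlow⟩ := LG.GapAux.NZ_low
  have hc1 : 0 < 16 * C0 / c := by positivity
  refine ⟨16 * C0 / c + 1, by linarith, fun r hr => ?_⟩
  obtain ⟨T0, hT0, hb⟩ := hblock r hr
  have hr1 : (1 : ℝ) ≤ r := by exact_mod_cast hr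
  have hlr : 0 ≤ Real.log r := Real.log_nonneg hr1
  have hΛ : 1 ≤ (1 + Real.log r) ^ 2 := one_le_pow₀ (by linarith)
  set Λ : ℝ := (1 + Real.log r) ^ 2 with hΛdef
  set G : ℝ → ℝ := fun Y => ∑ n ∈ Finset.Ioc 0 (NZ Y), FF r n with hG
  have hGmono : ∀ x y : ℝ, x ≤ y → G x ≤ G y := by
    intro x y hxy
    apply Finset.sum_le_sum_of_subset_of_nonneg
    · exact Finset.Ioc_subset_Ioc_right (SG.NZ_mono hxy)
    · intro n _ _
      exact FF_nonneg r n
  have hind : ∀ k : ℕ, ∀ Y : ℝ, T0 ≤ Y → Y ≤ 2 ^ (k + 1) * T0 →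
      G Y ≤ G (2 * T0) + 2 * C0 * Λ * (Y * Real.log Y) := by
    intro k
    induction k with
    | zero =>
      intro Y h1 h2
      rw [zero_add, pow_one] at h2
      have h3 := hGmono Y (2 * T0) h2
      have h4 : 0 ≤ Real.log Y := Real.log_nonneg (by linarith)
      have h5 : 0 ≤ 2 * C0 * Λ * (Y * Real.log Y) := by
        have : 0 ≤ Y := by linarith
        positivity
      linarith
    | succ k ih =>
      intro Y h1 h2
      have hY0 : 0 ≤ Y := by linarith
      have h4 : 0 ≤ Real.log Y := Real.log_nonneg (by linarith)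
      rcases le_or_gt Y (2 * T0) with h3 | h3
      · have h3 := hGmono Y (2 * T0) h3
        have h5 : 0 ≤ 2 * C0 * Λ * (Y * Real.log Y) := by positivity
        linarith
      · have h5 : T0 ≤ Y / 2 := by linarith
        have h6 : Y / 2 ≤ 2 ^ (k + 1) * T0 := by
          rw [pow_succ] at h2
          linarith
        have h7 := ih (Y / 2) h5 h6
        have h8 := hb (Y / 2) h5
        have e1 : 2 * (Y / 2) = Y := by ring
        rw [e1] at h8
        have h9 : G (Y / 2) + ∑ n ∈ Finset.Ioc (NZ (Y / 2)) (NZ Y), FF r n = G Y :=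
          Finset.sum_Ioc_consecutive _ (Nat.zero_le _) (SG.NZ_mono (by linarith))
        have h10 : Real.log (Y / 2) ≤ Real.log Y := Real.log_le_log (by linarith) (by linarith)
        have h11 : 0 ≤ Real.log (Y / 2) := Real.log_nonneg (by linarith)
        have h12 : Y / 2 * Real.log (Y / 2) ≤ Y / 2 * Real.log Y :=
          mul_le_mul_of_nonneg_left h10 (by linarith)
        have hCΛ : 0 ≤ C0 * Λ := by positivity
        have h13 : C0 * Λ * (Y / 2 * Real.log (Y / 2)) ≤ C0 * Λ * (Y / 2 * Real.log Y) :=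
          mul_le_mul_of_nonneg_left h12 hCΛ
        have h14 : 0 ≤ C0 * Λ * (Y * Real.log Y) := by positivity
        nlinarith
  have hG2 : ∀ᶠ N : ℕ in atTop, G (2 * T0) ≤ N := by
    filter_upwards [tendsto_natCast_atTop_atTop.eventually_ge_atTop (G (2 * T0))] with N h using h
  filter_upwards [ord_tendsto.eventually_ge_atTop (max T0 (4 * T1)), hG2,
    eventually_ge_atTop 1] with N h1 h2 h3
  have h4 : T0 ≤ ord N := (le_max_left _ _).trans h1
  have h5 : 4 * T1 ≤ ord N := (le_max_right _ _).trans h1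
  obtain ⟨k, hk⟩ : ∃ k : ℕ, ord N ≤ 2 ^ (k + 1) * T0 := by
    obtain ⟨k, hk⟩ := pow_unbounded_of_one_lt (ord N) (by norm_num : (1 : ℝ) < 2)
    refine ⟨k, ?_⟩
    have h6 : (2 : ℝ) ^ k ≤ 2 ^ (k + 1) := pow_le_pow_right₀ (by norm_num) (by omega)
    have h7 : (0 : ℝ) < 2 ^ (k + 1) := by positivity
    nlinarith
  have h6 := hind k (ord N) h4 hk
  have h7 : N ≤ NZ (ord N) := (SG.ord_le_iff h3 _).mp le_rfl
  have h8 : ∑ n ∈ Finset.Icc 1 N, FF r n ≤ G (ord N) := by
    rw [Icc_Ioc]
    apply Finset.sum_le_sum_of_subset_of_nonneg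
    · exact Finset.Ioc_subset_Ioc_right h7
    · intro n _ _
      exact FF_nonneg r n
  have h40 : 40 ≤ ord N := by linarith
  have h9 : ord N * Real.log (ord N) ≤ 8 / c * N := by
    have h10 : T1 ≤ ord N / 4 := by linarith
    have h11 := hlow (ord N / 4) h10
    have h12 : NZ (2 * (ord N / 4)) ≤ N := by
      by_contra hcon
      push Not at hcon
      have := (SG.ord_le_iff h3 _).mpr hcon.le
      linarith
    have h13 : (NZ (2 * (ord N / 4)) : ℝ) ≤ N := by exact_mod_cast h12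
    have h14 : Real.log (ord N) ≤ 2 * Real.log (ord N / 4) := by
      have : Real.log (ord N) ≤ Real.log ((ord N / 4) ^ 2) :=
        Real.log_le_log (by linarith) (by nlinarith)
      rw [Real.log_pow] at this
      exact_mod_cast this
    have h15 : ord N * Real.log (ord N) ≤ ord N * (2 * Real.log (ord N / 4)) :=
      mul_le_mul_of_nonneg_left h14 (by linarith)
    rw [div_mul_eq_mul_div, le_div_iff₀ hc]
    have h16 : ord N * Real.log (ord N) * c ≤ ord N * (2 * Real.log (ord N / 4)) * c :=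
      mul_le_mul_of_nonneg_right h15 hc.le
    linarith
  have h10 : 2 * C0 * Λ * (ord N * Real.log (ord N)) ≤ 2 * C0 * Λ * (8 / c * N) :=
    mul_le_mul_of_nonneg_left h9 (by positivity)
  have hN0 : (0 : ℝ) ≤ N := Nat.cast_nonneg N
  have h11 : (N : ℝ) ≤ Λ * N := le_mul_of_one_le_left hN0 hΛ
  calc ∑ n ∈ Finset.Icc 1 N, FF r n ≤ G (ord N) := h8
    _ ≤ G (2 * T0) + 2 * C0 * Λ * (ord N * Real.log (ord N)) := h6
    _ ≤ Λ * N + 2 * C0 * Λ * (8 / c * N) := by linarith
    _ = (16 * C0 / c + 1) * Λ * N := by field_simp; ring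

end Pool.Agent.Y743.NC
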